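import Pool.Agent.K3h73.TF.Mai

/-!
MP_5ec4a4_an, Q1: negative answer. The notions `IsTypeII1Factor`, `IrredOn` and
`IsSumOfIrreducibles` are defined in `Pool/Agent/K3h73/TF/Stm.lean`.
-/

set_option autoImplicit false

namespace Pool.Agent.Results.MP_5ec4a4_an.TraceNormDensityFails

open scoped InnerProductSpace
open Pool.Agent.K3h73.TF

variable {H : Type} [NormedAddCommGroup H] [InnerProductSpace ℂ H] [CompleteSpace H]

/-- The von Neumann algebra `W*(T)` generated by `T`: the bicommutant of `{T, T*}`. -/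
def WStar (T : H →L[ℂ] H) : Set (H →L[ℂ] H) :=
  Set.centralizer (Set.centralizer {T, star T})

/-- `K` is a trace-class operator with trace norm `‖K‖₁ = tr |K| < ε`: for some (equivalently,
every) orthonormal basis `b` of the separable infinite-dimensional space, the series
`∑ ⟨b n, |K| (b n)⟩` of nonnegative terms converges and its sum is less than `ε`. -/
def TraceNormLT (K : H →L[ℂ] H) (ε : ℝ) : Prop :=
  ∃ b : HilbertBasis ℕ ℂ H, Summable (fun n => (⟪b n, CFC.abs K (b n)⟫_ℂ).re) ∧
    ∑' n, (⟪b n, CFC.abs K (b n)⟫_ℂ).re < ε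

/-- **Negative answer to Q1 of MP_5ec4a4_an.** On every separable infinite-dimensional complex
Hilbert space there is an operator `T` which generates a factor of type `II₁` such that no
trace-class perturbation `T + K` with `‖K‖₁ < 1 / 20` is a countable direct sum of irreducible
operators. -/
theorem result (H : Type) [NormedAddCommGroup H] [InnerProductSpace ℂ H] [CompleteSpace H]
    [TopologicalSpace.SeparableSpace H] (hinf : ¬ FiniteDimensional ℂ H) :
    ∃ T : H →L[ℂ] H, IsTypeII1Factor (WStar T) ∧
      ∀ K : H →L[ℂ] H, TraceNormLT K (1 / 20) → ¬ IsSumOfIrreducibles (T + K) := by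
  obtain ⟨b⟩ := exists_basis (H := H) hinf
  obtain ⟨T, hT1, hT2⟩ := main_rep (Rep.ofBasis (Γ := G) b)
  refine ⟨T, hT1, fun K hK => ?_⟩
  obtain ⟨b', h1, h2⟩ := hK
  exact hT2 K _ (Pool.Agent.K3h9.TF.t_tr H b' K h1) h2.le

end Pool.Agent.Results.MP_5ec4a4_an.TraceNormDensityFails
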